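import Pool.Agent.P.MP_7a6434d8_pr.QL.Rsw.Chain

/-! Chains of bad frames at nonpositive levels. -/

open MeasureTheory ProbabilityTheory Set Filter Topology Metric
open scoped ENNReal

namespace Pool.Agent.QL

open Pool.Agent.LGD

variable {ν : Measure Dist}

theorem lt_Loop_iff {F : Fr} {s : Sys} {l : ℝ≥0∞} :
    l < Loop F s ↔ ∃ j < 4, l < Rp (pull (F.comp (rotF j)) s).1 := by
  rw [← not_le, Loop_le_iff]
  simp only [not_forall, not_le, exists_prop]

/-- A geometric chain of frames around `z` inside the reference domain. -/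
structure IsChainF (J : ℕ) (F : ℕ → Fr) (z : ℂ) (r : ℝ) : Prop where
  pos : 0 < r
  scale : ∀ j ≤ J, ‖(F j).a‖ = r / 256 ^ j
  centre : ∀ j ≤ J, ‖(F j).z - z‖ ≤ r / 256 ^ j / 4
  maps : ∀ j ≤ J, MapsTo (F j).map U0 U0

theorem IsChainF.tail {J : ℕ} {F : ℕ → Fr} {z : ℂ} {r : ℝ} (h : IsChainF (J + 1) F z r) :
    IsChainF J (fun j => F (j + 1)) z (r / 256) where
  pos := div_pos h.pos (by norm_num)
  scale j hj := by rw [h.scale _ (Nat.succ_le_succ hj), pow_succ', div_div]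
  centre j hj := by
    have := h.centre _ (Nat.succ_le_succ hj)
    rwa [pow_succ', ← div_div] at this
  maps j hj := h.maps _ (Nat.succ_le_succ hj)

/-- The frames `F 1, …, F J` are bad. -/
def badF (J : ℕ) (F : ℕ → Fr) (x : ℝ) : Set Sys := {s | ∀ j < J, ex x < Loop (F (j + 1)) s}

theorem badF_succ (J : ℕ) (F : ℕ → Fr) (x : ℝ) : badF (J + 1) F x =
    (⋃ j : Fin 4, pull ((F 1).comp (rotF j)) ⁻¹' bad x) ∩ badF J (fun j => F (j + 1)) x := by
  ext s
  have e2 : s ∈ (⋃ j : Fin 4, pull ((F 1).comp (rotF j)) ⁻¹' bad x) ↔ ex x < Loop (F 1) s := by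
    rw [Loop, lt_iSup_iff, mem_iUnion]
    rfl
  rw [mem_inter_iff, e2]
  refine ⟨fun h => ⟨h 0 (Nat.succ_pos J), fun j hj => h (j + 1) (Nat.succ_lt_succ hj)⟩,
    fun h j hj => ?_⟩
  cases j with
  | zero => exact h.1
  | succ j => exact h.2 j (Nat.lt_of_succ_lt_succ hj)

theorem t1_geom {F : Fr} {z : ℂ} {r : ℝ} (hr : 0 < r) (ha : ‖F.a‖ = r) (hz : ‖F.z - z‖ ≤ r / 4)
    (j : ℕ) {w : ℂ} (hw : w ∈ (F.comp (rotF j)).map '' Tp.1) : r ≤ ‖w - z‖ ∧ ‖w - z‖ < 5 * r := by
  obtain ⟨v, hv, rfl⟩ := hw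
  obtain ⟨h1, h2⟩ := Tp_subset hv
  rw [sub_zero] at h1 h2
  have h4 : ‖F.a * (rotF j).map v‖ = r * ‖v‖ := by rw [norm_mul, ha, norm_rotF_map]
  rw [Fr.comp_map, Fr.map_apply, add_sub_assoc]
  have h6 := norm_add_le (F.a * (rotF j).map v) (F.z - z)
  have h7 := norm_sub_le (F.a * (rotF j).map v + (F.z - z)) (F.z - z)
  rw [add_sub_cancel_right] at h7
  rw [h4] at h6 h7
  constructor <;> nlinarith

theorem mapsTo_comp_rotF {F : Fr} (h : MapsTo F.map U0 U0) (j : ℕ) :
    MapsTo (F.comp (rotF j)).map U0 U0 := fun v hv => by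
  rw [Fr.comp_map]
  exact h (mapsTo_rotF j hv)

theorem badF_meas (x : ℝ) {z : ℂ} (J : ℕ) : ∀ {F : ℕ → Fr} {r : ℝ}, IsChainF J F z r →
    MeasurableSet[SS (ball z r)] (badF J F x) := by
  induction J with
  | zero =>
    intro F r _
    have e : badF 0 F x = univ := by ext s; simp [badF]
    rw [e]
    exact MeasurableSet.univ
  | succ J ih =>
    intro F r h
    have h0 := h.pos
    rw [badF_succ]
    refine MeasurableSet.inter (MeasurableSet.iUnion fun j => ?_)
      (SS_mono (ball_subset_ball (by linarith)) _ (ih h.tail))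
    refine SS_mono (fun w hw => ?_) _ (measurable_pull_SS _ _ (measurableSet_bad_SS x))
    have h1 := (t1_geom h.tail.pos (by simpa using h.tail.scale 0 (Nat.zero_le _))
      (by simpa using h.tail.centre 0 (Nat.zero_le _)) j hw).2
    rw [mem_ball, dist_eq_norm]
    linarith

theorem badF_prod (hν : IsCanon ν) (R : Regime ν) {z : ℂ} {x : ℝ} {G : Dist → ℝ≥0∞}
    (hG : ∀ᵐ k ∂nuh ν, R.K k (bad x) = G k) (J : ℕ) : ∀ {F : ℕ → Fr} {r : ℝ}, IsChainF J F z r →
    ∀ᵐ h ∂nuh ν, R.K h (badF J F x) ≤ ∏ j ∈ Finset.range J, cn_Gs G (absF (F (j + 1)) h) := by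
  induction J with
  | zero => exact fun _ => Eventually.of_forall fun h => by simpa using prob_le_one
  | succ J ih =>
    intro F r hF
    have hm := hF.maps 1 (Nat.succ_le_succ (Nat.zero_le _))
    have h1 : ∀ j : Fin 4, ∀ᵐ h ∂nuh ν,
        R.K h (pull ((F 1).comp (rotF j)) ⁻¹' bad x ∩ badF J (fun j => F (j + 1)) x) =
          G (absF (rotF j) (absF (F 1) h)) * R.K h (badF J (fun j => F (j + 1)) x) := by
      intro j
      have h2 := R.indep _ (ball z (r / 256)) (nice_Tp.image (mapsTo_comp_rotF hm j))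
        (disjoint_left.2 fun w hw hw' => by
          rw [mem_ball, dist_eq_norm] at hw'
          exact (t1_geom hF.tail.pos (by simpa using hF.tail.scale 0 (Nat.zero_le _))
            (by simpa using hF.tail.centre 0 (Nat.zero_le _)) j hw).1.not_gt hw') _ _
        (measurable_pull_SS _ _ (measurableSet_bad_SS x)) (badF_meas x J hF.tail)
      filter_upwards [h2, R.cov _ (mapsTo_comp_rotF hm j) _ (measurableSet_bad_U0 x),
        (absF_qmp hν ((F 1).comp (rotF j))).ae hG] with h h3 h4 h5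
      rw [h3, h4, h5, absF_absF (Fr.comp_z _ _) (Fr.comp_a _ _)]
    filter_upwards [ae_all_iff.2 h1, ih hF.tail] with h h2 h3
    rw [Finset.prod_range_succ', mul_comm, badF_succ]
    refine le_trans ?_ (mul_le_mul_right h3 _)
    rcases min_cases 1 (∑ j : Fin 4, G (absF (rotF j) (absF (F 1) h))) with
      ⟨h4, -⟩ | ⟨h4, -⟩ <;> rw [zero_add, cn_Gs, h4]
    · rw [one_mul]
      exact measure_mono inter_subset_right
    · rw [iUnion_inter, Finset.sum_mul]
      refine (measure_iUnion_fintype_le _ _).trans (Finset.sum_le_sum fun j _ => (h2 j).le)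

/-- Geometric tail for chains of bad frames at levels at most `c₀`. -/
theorem t1_tail (hν : IsCanon ν) : ∃ C : ℝ≥0∞, C ≠ ⊤ ∧ ∀ th : ℝ≥0∞, 0 < th →
    ∃ ε : ℝ≥0∞, 0 < ε ∧ ∀ (R : Regime ν) (x c₀ : ℝ), (∀ c ≤ c₀, R.bet c (bad x) ≤ ε) →
    ∀ (J : ℕ) (F : ℕ → Fr) (z : ℂ) (r : ℝ), r ≤ 1 / 100 → IsChainF J F z r →
    ∫⁻ k in {k | ∀ j < J, Phi (F (j + 1)) k ≤ c₀}, R.K k (badF J F x) ∂nuh ν ≤ C * th ^ J := by
  obtain ⟨C, hC, h⟩ := ltail_sum hν
  refine ⟨C, hC, fun th hth => ?_⟩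
  obtain ⟨ε₁, h1, h2⟩ := h th hth
  obtain ⟨ε, h3, h4⟩ := bet_small hν 3 (ε := ε₁ / 4) (ENNReal.div_pos h1.ne' (by norm_num))
  refine ⟨ε, h3, fun R x c₀ hok J F z r hr hF => ?_⟩
  obtain ⟨G, hG1, hG2, hG3⟩ := R.loc1 nice_Tp (measurableSet_bad_SS x)
  have hGs := cn_Gs_loc hG1
  have hch : ∀ lo, IsChainG ν ε₁ J F (fun _ => cn_Gs G) z r lo c₀ := fun lo =>
    { top := by
        have := hF.maps 0 (Nat.zero_le _) (show (0 : ℂ) ∈ U0 from mem_ball_self (by norm_num))
        rw [U0, mem_ball_zero_iff, Fr.map_apply, mul_zero, zero_add] at this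
        exact this.le
      small := hr
      scale := hF.scale
      centre := hF.centre
      loc := fun _ _ _ => hGs
      le_one := fun _ _ _ _ => min_le_left _ _
      rare := fun _ _ _ t ht => cn_Gs_rare hν hG1.measurable
        (((h4 R (bad x) (min t c₀) t (by
          rw [abs_le]
          constructor
          · linarith [min_le_left t c₀]
          · rcases min_cases t c₀ with ⟨e, -⟩ | ⟨e, -⟩ <;> rw [e] <;> linarith [ht.2])).1 G
          (hG1.mono' nice_Tp.2.2) hG2 hG3).1 (hok _ (min_le_right _ _))) }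
  set A : ℕ → Set Dist := fun n => {k | ∀ j < J, Phi (F (j + 1)) k ∈ Icc (c₀ - n) c₀} with hA
  have e : {k | ∀ j < J, Phi (F (j + 1)) k ≤ c₀} = ⋃ n, A n := by
    refine Subset.antisymm (fun k hk => ?_) (iUnion_subset fun n k hk j hj => (hk j hj).2)
    obtain ⟨n, hn⟩ := exists_nat_ge (∑ j ∈ Finset.range J, (c₀ - Phi (F (j + 1)) k))
    refine mem_iUnion.2 ⟨n, fun j hj => ⟨?_, hk j hj⟩⟩
    have := Finset.single_le_sum (f := fun j => c₀ - Phi (F (j + 1)) k)
      (fun i hi => sub_nonneg.2 (hk i (Finset.mem_range.1 hi))) (Finset.mem_range.2 hj)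
    linarith
  have hmono : Monotone A := fun n m hnm k hk j hj =>
    ⟨le_trans (sub_le_sub_left (by exact_mod_cast hnm) _) (hk j hj).1, (hk j hj).2⟩
  have hAm : ∀ n, MeasurableSet (A n) := fun n => by
    have e2 : A n = ⋂ (j : ℕ) (_ : j < J), Phi (F (j + 1)) ⁻¹' Icc (c₀ - n) c₀ := by
      ext k; simp only [hA, mem_iInter, mem_preimage, mem_ofPred_eq]
    rw [e2]
    exact MeasurableSet.iInter fun i => MeasurableSet.iInter fun _ =>
      measurable_Phi _ measurableSet_Icc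
  rw [e, setLIntegral_iUnion_of_directed _ hmono.directed_le]
  refine iSup_le fun n => ?_
  have hHm : Measurable fun h =>
      ∏ j ∈ Finset.range J, cn_fac (F (j + 1)) (cn_Gs G) (c₀ - n) c₀ h :=
    Finset.measurable_fun_prod _ fun j _ => cn_fac_meas _ hGs.measurable _ _
  calc _ ≤ ∫⁻ h, ∏ j ∈ Finset.range J, cn_fac (F (j + 1)) (cn_Gs G) (c₀ - n) c₀ h ∂nuh ν := by
        rw [← lintegral_indicator (hAm n)]
        refine lintegral_mono_ae ?_
        filter_upwards [badF_prod hν R hG3 J hF] with k hk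
        by_cases h5 : k ∈ A n
        · rw [indicator_of_mem h5]
          refine hk.trans (le_of_eq (Finset.prod_congr rfl fun j hj => ?_))
          rw [cn_fac, indicator_of_mem
            (show k ∈ {h | Phi _ h ∈ Icc (c₀ - n) c₀} from h5 j (Finset.mem_range.1 hj))]
        · rw [indicator_of_notMem h5]
          exact zero_le
    _ ≤ ∫⁻ _, C * th ^ J ∂gaussianReal 0 1 := by
        rw [lintegral_nuh' hν hHm]
        refine lintegral_mono fun s => ?_
        simpa only [cn_fac_lev] using h2 J F _ z r (c₀ - n) c₀ s (hch _)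
    _ = _ := by simp

end Pool.Agent.QL
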