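import Pool.Agent.P.MP_7a6434d8_pr.QL.Rsw.Range

/-! Almost surely all small frames of a grid have low levels. -/

open MeasureTheory ProbabilityTheory Set Filter Topology Metric
open scoped ENNReal

namespace Pool.Agent.QL

open Pool.Agent.LGD

variable {ν : Measure Dist}

/-- The Gaussian tail of the average of a frame. -/
theorem t2_tail (hν : IsCanon ν) : ∃ C : ℝ, ∀ z a : ℂ, ‖z‖ ≤ 4 → a ≠ 0 → ‖a‖ ≤ 1 →
    ∀ y l : ℝ, 0 ≤ y →
    ν {k | y < |Xm z a k|} ≤ 2 * ex (l ^ 2 * (-Real.log ‖a‖ + C) / 2 - l * y) := by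
  obtain ⟨C, hC⟩ := hν.ga 4
  refine ⟨C, fun z a hz ha h0 y l hy => ?_⟩
  obtain ⟨h1, h2⟩ := hC z a 0 1 ha one_ne_zero (by rw [sub_zero, norm_one]; linarith)
    (by rw [norm_one]; linarith)
  rw [norm_one, one_div, Real.log_inv] at h1 h2
  have h3 : ν {k | y < |Xm z a k|} ≤ ν {k | y < |Xm z a k - Xm 0 1 k|} := by
    refine measure_mono_ae ?_
    filter_upwards [hν.X_one] with k hk h
    change y < |Xm z a k - Xm 0 1 k|
    rwa [hk, sub_zero]
  refine h3.trans ((h2 y hy).trans ?_)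
  gcongr
  refine rg_mono ?_
  generalize -Real.log ‖a‖ + C = v at h1
  rw [neg_le, le_div_iff₀ (by linarith)]
  nlinarith [sq_nonneg (y - l * v)]

/-- Frames of size `r₀ / b ^ j`, at most `N b ^ (2 j)` of them: eventually all levels are low. -/
theorem t2_range (hν : IsCanon ν) (D : ℕ → Finset Fr) {N r₀ b : ℝ} (hr : 0 < r₀) (hr1 : r₀ ≤ 1)
    (hb : 1 < b) (hcard : ∀ j, ((D j).card : ℝ) ≤ N * b ^ (2 * j))
    (ha : ∀ j, ∀ F ∈ D j, ‖F.a‖ = r₀ / b ^ j) (hz : ∀ j, ∀ F ∈ D j, ‖F.z‖ ≤ 4) :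
    ∀ᵐ k ∂nuh ν, ∀ c : ℝ, ∀ᶠ j in atTop, ∀ F ∈ D j, Phi F k ≤ c := by
  obtain ⟨C, hC⟩ := t2_tail hν
  have hl : 0 < Real.log b := Real.log_pos hb
  have hb0 : 0 < b := by linarith
  have hL : ∀ j : ℕ, -Real.log (r₀ / b ^ j) = -Real.log r₀ + j * Real.log b := fun j => by
    rw [Real.log_div hr.ne' (by positivity), Real.log_pow]; ring
  have h0 : 0 ≤ -Real.log r₀ := neg_nonneg.2 (Real.log_nonpos hr.le hr1)
  set A : ℕ → Set Dist := fun j => ⋃ F ∈ D j,
    {k | 2.02 * (-Real.log r₀ + j * Real.log b) < |Xm F.z F.a k|} with hA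
  have h1 : ∀ j, ν (A j) ≤
      ENNReal.ofReal N * (2 * ex (2.0402 * C)) * ex (-(0.04 * Real.log b)) ^ j := by
    intro j
    have hj : (0 : ℝ) ≤ j * Real.log b := by positivity
    calc _ ≤ ∑ F ∈ D j, ν {k | 2.02 * (-Real.log r₀ + j * Real.log b) < |Xm F.z F.a k|} :=
          measure_biUnion_finset_le _ _
      _ ≤ ∑ _F ∈ D j, 2 * ex (2.0402 * C - 2.04 * (j * Real.log b)) := by
          refine Finset.sum_le_sum fun F hF => (hC F.z F.a (hz j F hF) F.a_ne ?_ _ 2.02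
            (by positivity)).trans ?_
          · rw [ha j F hF]
            exact (div_le_self hr.le (one_le_pow₀ hb.le)).trans hr1
          · rw [ha j F hF, hL]
            gcongr
            exact rg_mono (by nlinarith)
      _ ≤ ENNReal.ofReal (N * b ^ (2 * j)) * (2 * ex (2.0402 * C - 2.04 * (j * Real.log b))) := by
          rw [Finset.sum_const, nsmul_eq_mul, ← ENNReal.ofReal_natCast]
          gcongr
          exact hcard j
      _ = _ := by
          have e : ENNReal.ofReal (b ^ (2 * j)) = ex (2 * (j * Real.log b)) := by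
            rw [ex, ← mul_assoc, show (2 * j : ℝ) = ((2 * j : ℕ) : ℝ) by push_cast; ring,
              Real.exp_nat_mul, Real.exp_log hb0]
          rw [ENNReal.ofReal_mul' (by positivity), e, rg_pow, mul_assoc, mul_assoc, mul_assoc,
            mul_left_comm (ex _), ← rg_add, ← rg_add]
          congr 3
          ring
  have h2 : ∑' j, ν (A j) ≠ ⊤ := by
    refine ne_top_of_le_ne_top ?_ (ENNReal.tsum_le_tsum h1)
    rw [ENNReal.tsum_mul_left, ENNReal.tsum_geometric]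
    refine ENNReal.mul_ne_top (ENNReal.mul_ne_top ENNReal.ofReal_ne_top
      (ENNReal.mul_ne_top ENNReal.ofNat_ne_top ENNReal.ofReal_ne_top)) (ENNReal.inv_ne_top.2 ?_)
    exact (tsub_pos_of_lt (ENNReal.ofReal_lt_one.2 (Real.exp_lt_one_iff.2 (by linarith)))).ne'
  filter_upwards [(norm0_mp hν).quasiMeasurePreserving.ae (ae_eventually_notMem h2)] with k hk c
  have h3 : ∀ᶠ j : ℕ in atTop, k psi - c ≤ 0.02 * (j * Real.log b) :=
    ((tendsto_natCast_atTop_atTop.atTop_mul_const hl).const_mul_atTop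
      (by norm_num : (0 : ℝ) < 0.02)).eventually_ge_atTop _
  filter_upwards [hk, h3] with j h4 h5 F hF
  have h6 : |Xm F.z F.a (norm0 k)| ≤ 2.02 * (-Real.log r₀ + j * Real.log b) :=
    not_lt.1 fun h => h4 (mem_biUnion (Finset.mem_coe.2 hF) h)
  have h7 := Phi_lev F (norm0 k) (k psi)
  rw [lev_norm0] at h7
  have h8 := hL j
  have hj : (0 : ℝ) ≤ j * Real.log b := by positivity
  rw [h7, Phi, ha j F hF]
  nlinarith [(abs_le.1 h6).2, rg_QQ.1]

end Pool.Agent.QL
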