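import Pool.Agent.P.MP_7a6434d8_pr.QL.GT2.T2
import Pool.Agent.P.MP_7a6434d8_pr.QL.GT.Lev

/-! Lower bound for the probability of an event seen from a small frame. -/

open MeasureTheory ProbabilityTheory Set Filter Topology Metric
open scoped ENNReal

namespace Pool.Agent.QL

open Pool.Agent.LGD

variable {ν : Measure Dist}

theorem t3_shift (H : ℝ → ℝ≥0∞) (a u v : ℝ) :
    ∫⁻ s in Ioc u v, H (a + s) = ∫⁻ w in Ioc (a + u) (a + v), H w := by
  have h := (measurePreserving_add_left volume a).setLIntegral_comp_preimage_emb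
    (measurableEmbedding_addLeft a) H (Ioc (a + u) (a + v))
  rw [← h]
  congr 2
  ext s
  simp

theorem t3_sum (H : ℝ → ℝ≥0∞) (c : ℝ) (n : ℕ) :
    ∑ i ∈ Finset.range n, ∫⁻ s in Icc (0 : ℝ) 1, H (c - i + s) =
      ∫⁻ w in Ioc (c + 1 - n) (c + 1), H w := by
  induction n with
  | zero => simp
  | succ n ih =>
    have hn : (0 : ℝ) ≤ n := n.cast_nonneg
    rw [Finset.sum_range_succ, ih, ← setLIntegral_congr (Ioc_ae_eq_Icc (a := (0 : ℝ)) (b := 1)),
      t3_shift, add_comm, show c - n + 1 = c + 1 - n by ring,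
      ← lintegral_union measurableSet_Ioc (Ioc_disjoint_Ioc_of_le le_rfl),
      Ioc_union_Ioc_eq_Ioc (by linarith) (by linarith)]
    congr 3
    push_cast
    ring

theorem t3_cs (hν : IsCanon ν) {f : Test} (hf : tsupport f ⊆ ball 0 5) (w : ℝ)
    {Ψ : Dist → ℝ≥0∞} (hΨ : Measurable Ψ) (h1 : ∀ k, Ψ k ≤ 1) :
    (∫⁻ k, Ψ (sh f w k) ∂ν) ^ 2 ≤ ex (w ^ 2 * en0 f) * ∫⁻ k, Ψ k ∂ν := by
  have m : Measurable fun k : Dist => ex (w * k (lap0 f) - w ^ 2 * en0 f / 2) :=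
    CMAux.measurable_ex.comp (((measurable_eval _).const_mul w).sub_const _)
  rw [cm_sh hν hf w hΨ]
  refine (lint_cs ν m.aemeasurable hΨ.aemeasurable).trans (mul_le_mul' (le_of_eq ?_)
    (lintegral_mono fun k => ?_))
  · have e : ∀ k : Dist, ex (w * k (lap0 f) - w ^ 2 * en0 f / 2) ^ 2 =
        ex (-(w ^ 2 * en0 f)) * ex (2 * w * k (lap0 f)) := fun k => by
      rw [ex_sq, ← rg_add]
      congr 1
      ring
    simp only [e]
    rw [lintegral_const_mul' _ _ (ex_ne_top' _), lintegral_ex_lap hν, ← rg_add]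
    congr 1
    ring
  · rw [sq]
    exact (mul_le_mul_left (h1 k) _).trans (one_mul _).le

/-- A cutoff adapted to a frame. -/
theorem t3_cutoff : ∃ E : ℝ, ∀ (z : ℂ) (r : ℝ), ‖z‖ ≤ 4 → 0 < r → r ≤ 1 / 100 → ∃ f : Test,
    tsupport f ⊆ ball 0 5 ∧ (∀ x ∈ ball z (16 * r), f x = 1) ∧ en0 f * -Real.log r ≤ |E| := by
  obtain ⟨E, hE⟩ := exists_cutoff
  refine ⟨7 * E, fun z r hz hp hr => ?_⟩
  have hL := one_le_neg_log hp hr
  have hx : (2 : ℝ) ≤ 1 / (32 * r) := by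
    rw [le_div_iff₀ (by positivity)]
    linarith
  obtain ⟨N, n1, n2⟩ := exists_nat_pow_near (one_le_two.trans hx) (one_lt_two (α := ℝ))
  have hN : 1 ≤ N := by
    rcases N with _ | N
    · simp only [zero_add, pow_one] at n2
      linarith
    · omega
  have hN' : (1 : ℝ) ≤ N := by exact_mod_cast hN
  obtain ⟨f, f1, f2, f3⟩ := hE z N hN
  have hLN : -Real.log r ≤ 7 * N := by
    have h1 : r⁻¹ ≤ 2 ^ (N + 6) := by
      have e : r⁻¹ = 1 / (32 * r) * 32 := by field_simp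
      rw [e, show (2 : ℝ) ^ (N + 6) = 2 ^ (N + 1) * 32 by ring]
      linarith
    have h2 := Real.log_le_log (inv_pos.2 hp) h1
    rw [Real.log_inv, Real.log_pow] at h2
    push_cast at h2
    nlinarith [Real.log_two_lt_d9, Real.log_two_gt_d9]
  refine ⟨f, f1.trans (closedBall_subset_ball' (by rw [dist_zero_right]; linarith)),
    fun x hx => f2 x (ball_subset_closedBall (ball_subset_ball (by
      rw [le_div_iff₀ (by positivity)] at n1 ⊢
      linarith) hx)), ?_⟩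
  rw [f3, abs_mul, abs_of_pos (by norm_num : (0 : ℝ) < 7), div_mul_eq_mul_div,
    div_le_iff₀ (by linarith)]
  nlinarith [le_abs_self E, abs_nonneg E]

theorem t3_local (hν : IsCanon ν) {p : ℝ≥0∞} (hp : 0 < p) : ∃ p' : ℝ≥0∞, 0 < p' ∧
    ∀ r : ℝ, 0 < r → r ≤ 1 / 100 → ∀ G : Dist → ℝ≥0∞, Loc U0 G → (∀ k, G k ≤ 1) →
    (⌈√(-Real.log r)⌉₊ : ℝ≥0∞) * p ≤ ∑ i ∈ Finset.range ⌈√(-Real.log r)⌉₊,
      ∫⁻ s in Icc (0 : ℝ) 1, ∫⁻ k, G (lev k (QQ * Real.log r - i + s)) ∂ν →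
    ∀ F : Fr, ‖F.a‖ = r → ‖F.z‖ ≤ 4 → ∀ s ∈ Icc (-1 : ℝ) 1,
      p' ≤ ∫⁻ k, G (absF F (lev k s)) ∂ν := by
  have := hν.prob
  wlog h1 : p ≤ 1 generalizing p
  · obtain ⟨p', h2, h3⟩ := this one_pos le_rfl
    exact ⟨p', h2, fun r hr hr' G hG hG1 h => h3 r hr hr' G hG hG1
      (le_trans (mul_le_mul_right (not_le.1 h1).le _) h)⟩
  have hpt : p / 2 ≠ ⊤ := ENNReal.div_ne_top (ne_top_of_le_ne_top ENNReal.one_ne_top h1) two_ne_zero
  have hp2 : 0 < p / 2 := ENNReal.half_pos hp.ne'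
  obtain ⟨C, hC⟩ := t2_tail hν
  obtain ⟨E, hE⟩ := t3_cutoff
  have t1 : Tendsto (fun y : ℝ => 2 * ex ((1 + |C|) / 2 - y)) atTop (𝓝 0) := by
    rw [← mul_zero (2 : ℝ≥0∞)]
    refine ENNReal.Tendsto.const_mul ?_ (Or.inr ENNReal.ofNat_ne_top)
    rw [← ENNReal.ofReal_zero]
    refine ENNReal.tendsto_ofReal (Real.tendsto_exp_atBot.comp ?_)
    exact tendsto_atBot_add_const_left _ _ tendsto_neg_atTop_atBot
  obtain ⟨M, hM1, hM⟩ := ((t1.eventually (ge_mem_nhds hp2)).and (eventually_ge_atTop 0)).exists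
  set D : ℝ≥0∞ := ENNReal.ofReal (2 * (M + 4)) ^ 2 * ex ((M + 4) ^ 2 * |E|) with hD
  have hD' : D ≠ ⊤ := ENNReal.mul_ne_top (ENNReal.pow_ne_top ENNReal.ofReal_ne_top) (ex_ne_top' _)
  refine ⟨(p / 2) ^ 2 / D, ENNReal.div_pos (pow_ne_zero 2 hp2.ne') hD',
    fun r hr hr' G hG hG1 h F ha hz s hs => ENNReal.div_le_of_le_mul' ?_⟩
  have hL := one_le_neg_log hr hr'
  obtain ⟨f, f1, f2, f3⟩ := hE F.z r hz hr hr'
  have hX := hC F.z F.a hz F.a_ne (by rw [ha]; linarith) (M * √(-Real.log r)) (√(-Real.log r))⁻¹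
    (by positivity)
  rw [ha] at hX
  set L := -Real.log r with hLdef
  have s1 : 1 ≤ √L := Real.one_le_sqrt.2 hL
  have s2 : √L ^ 2 = L := Real.sq_sqrt (by linarith)
  set n := ⌈√L⌉₊ with hn
  have n1 : √L ≤ n := Nat.le_ceil _
  have n2 : (n : ℝ) ≤ 2 * √L := by linarith [Nat.ceil_lt_add_one (by linarith : 0 ≤ √L)]
  have hX' : ν {k | M * √L < |Xm F.z F.a k|} ≤ p / 2 := by
    refine hX.trans (le_trans ?_ hM1)
    gcongr
    refine rg_mono ?_
    have e1 : (√L)⁻¹ * (M * √L) = M := by field_simp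
    have e2 : (√L)⁻¹ ^ 2 * (L + C) ≤ 1 + |C| := by
      rw [inv_pow, s2, inv_mul_le_iff₀ (by linarith)]
      nlinarith [le_abs_self C, abs_nonneg C]
    rw [e1]
    linarith
  set B := (M + 4) * √L with hB
  set Ψ : Dist → ℝ≥0∞ := fun k => G (absF F (lev k s)) with hΨ
  have mΨ : Measurable Ψ := hG.measurable.comp ((measurable_absF F).comp (measurable_lev_const s))
  have e1 : ∀ w k, Ψ (sh f w k) = G (lev (Tm F.z F.a k) (s + Phi F k + w)) := fun w k => by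
    rw [← lev_lev, ← absF_lev]
    refine hG.eq_of_agree fun φ hφ => ?_
    rw [← sh_lev, absF_apply, sh_apply, lev_apply (absF F _), absF_apply,
      pair_const f2 (tsupport_pushT_subset F.a_ne hφ fun x hx => ?_), integral_pushT F.a_ne]
    · ring
    · have hx' : ‖x‖ < 4 := by simpa [U0] using hx
      rw [mem_preimage, mem_ball_iff_norm, aff, add_sub_cancel_right, norm_mul, ha]
      nlinarith
  set q := (ex ((M + 4) ^ 2 * |E|) * ∫⁻ k, Ψ k ∂ν) ^ (2⁻¹ : ℝ) with hq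
  have hq2 : q ^ 2 = ex ((M + 4) ^ 2 * |E|) * ∫⁻ k, Ψ k ∂ν := by
    rw [hq, ← ENNReal.rpow_two, ← ENNReal.rpow_mul]
    norm_num
  have b1 : ∀ w ∈ Ioc (-B) B, ∫⁻ k, Ψ (sh f w k) ∂ν ≤ q := fun w hw => by
    refine le_of_sq_le_sq' ((t3_cs hν f1 w mΨ fun k => hG1 _).trans ?_)
    rw [hq2]
    gcongr
    refine rg_mono ?_
    have h2 : w ^ 2 ≤ (M + 4) ^ 2 * L := by
      rw [← s2, ← mul_pow]
      exact sq_le_sq' hw.1.le hw.2
    have h3 := en0_nonneg hν f
    nlinarith [mul_le_mul_of_nonneg_right h2 h3, mul_le_mul_of_nonneg_left f3 (sq_nonneg (M + 4))]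
  have mT : Measurable fun x : Dist × ℝ => G (lev (Tm F.z F.a x.1) x.2) :=
    hG.measurable.comp (measurable_lev.comp
      (((measurable_Tm _ _).comp measurable_fst).prodMk measurable_snd))
  have mS : Measurable fun x : Dist × ℝ => Ψ (sh f x.2 x.1) := mΨ.comp (measurable_sh f)
  have mA : MeasurableSet {k | M * √L < |Xm F.z F.a k|} :=
    measurableSet_lt measurable_const (measurable_Xm _ _).abs
  have b2 : ∀ k, ∫⁻ w in Ioc (QQ * Real.log r + 1 - n) (QQ * Real.log r + 1),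
      G (lev (Tm F.z F.a k) w) ≤ (∫⁻ w in Ioc (-B) B, Ψ (sh f w k)) +
        {k | M * √L < |Xm F.z F.a k|}.indicator (fun _ => (n : ℝ≥0∞)) k := fun k => by
    by_cases hk : k ∈ {k | M * √L < |Xm F.z F.a k|}
    · rw [indicator_of_mem hk]
      refine le_trans ?_ le_add_self
      refine (lintegral_mono fun w => hG1 _).trans (le_of_eq ?_)
      rw [setLIntegral_const, Real.volume_Ioc, one_mul, sub_sub_cancel, ENNReal.ofReal_natCast]
    · refine le_trans ?_ le_self_add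
      have h2 := abs_le.1 (not_lt.1 (show ¬ M * √L < |Xm F.z F.a k| from hk))
      simp only [e1]
      rw [t3_shift fun w => G (lev (Tm F.z F.a k) w)]
      refine lintegral_mono_set (Ioc_subset_Ioc ?_ ?_) <;> rw [Phi, ha] <;>
        nlinarith [hs.1, hs.2, h2.1, h2.2]
  have b3 : (n : ℝ≥0∞) * (p / 2) + n * (p / 2) ≤
      n * (ENNReal.ofReal (2 * (M + 4)) * q) + n * (p / 2) := by
    rw [← mul_add, ENNReal.add_halves]
    refine h.trans ?_
    rw [t3_sum fun w => ∫⁻ k, G (lev k w) ∂ν]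
    calc _ = ∫⁻ w in Ioc (QQ * Real.log r + 1 - n) (QQ * Real.log r + 1),
          ∫⁻ k, G (lev (Tm F.z F.a k) w) ∂ν := lintegral_congr fun w =>
          ((hν.Tm_mp F.a_ne F.z).lintegral_comp
            (hG.measurable.comp (measurable_lev_const w))).symm
      _ = ∫⁻ k, (∫⁻ w in Ioc (QQ * Real.log r + 1 - n) (QQ * Real.log r + 1),
          G (lev (Tm F.z F.a k) w)) ∂ν :=
          (lintegral_lintegral_swap (f := fun k w => G (lev (Tm F.z F.a k) w))
            mT.aemeasurable).symm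
      _ ≤ _ := lintegral_mono b2
      _ = (∫⁻ w in Ioc (-B) B, ∫⁻ k, Ψ (sh f w k) ∂ν) + n * ν {k | M * √L < |Xm F.z F.a k|} := by
          rw [lintegral_add_right _ (measurable_const.indicator mA), lintegral_indicator_const mA,
            lintegral_lintegral_swap (f := fun k w => Ψ (sh f w k)) mS.aemeasurable]
      _ ≤ (∫⁻ _ in Ioc (-B) B, q) + n * (p / 2) :=
          add_le_add (setLIntegral_mono' measurableSet_Ioc b1) (mul_le_mul_right hX' _)
      _ ≤ _ := by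
          rw [setLIntegral_const, Real.volume_Ioc, mul_comm q, ← mul_assoc,
            ← ENNReal.ofReal_natCast, ← ENNReal.ofReal_mul (Nat.cast_nonneg _)]
          gcongr
          nlinarith
  have hn0 : (n : ℝ≥0∞) ≠ 0 := by
    have : (0 : ℝ) < n := by linarith
    exact_mod_cast this.ne'
  rw [ENNReal.add_le_add_iff_right (ENNReal.mul_ne_top (ENNReal.natCast_ne_top n) hpt),
    ENNReal.mul_le_mul_iff_right hn0 (ENNReal.natCast_ne_top n)] at b3
  refine (pow_le_pow_left' b3 2).trans (le_of_eq ?_)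
  rw [mul_pow, hq2, hD, mul_assoc]

/-- An event that is likely on average over a window of levels is likely in every frame of the
corresponding size. -/
theorem t3_lower (hν : IsCanon ν) {p : ℝ≥0∞} (hp : 0 < p) : ∃ p' : ℝ≥0∞, 0 < p' ∧
    ∀ r : ℝ, 0 < r → r ≤ 1 / 100 → ∃ (n : ℕ) (c : ℝ), 1 ≤ n ∧ c ≤ 0 ∧
    ∀ (R : Regime ν) (E : Set Sys), MeasurableSet[SS U0] E →
    (n : ℝ≥0∞) * p ≤ ∑ i ∈ Finset.range n, R.bet (c - i) E →
    ∀ F : Fr, ‖F.a‖ = r → MapsTo F.map U0 U0 → p' ≤ ∫⁻ k, R.K k (pull F ⁻¹' E) ∂nuh ν := by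
  obtain ⟨p', h1, h2⟩ := t3_local hν hp
  have h3 : gaussianReal 0 1 (Icc (-1 : ℝ) 1) ≠ 0 := fun h => by
    have := gaussianReal_absolutelyContinuous' 0 one_ne_zero h
    simp at this
    linarith
  refine ⟨p' * gaussianReal 0 1 (Icc (-1 : ℝ) 1), ENNReal.mul_pos h1.ne' h3, fun r hr hr' =>
    ⟨⌈√(-Real.log r)⌉₊, QQ * Real.log r, ?_, ?_, fun R E hE h F ha hF => ?_⟩⟩
  · exact Nat.one_le_ceil_iff.2 (Real.sqrt_pos.2 (by linarith [one_le_neg_log hr hr']))
  · nlinarith [one_le_neg_log hr hr', rg_QQ.1]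
  obtain ⟨G, hG1, hG2, hG3⟩ := R.loc1 U0_nice hE
  simp only [R.bet_eq hν hG3] at h
  have hz : ‖F.z‖ ≤ 4 := by
    have := hF (show (0 : ℂ) ∈ U0 from mem_ball_self (by norm_num))
    rw [U0, mem_ball_zero_iff, Fr.map_apply, mul_zero, zero_add] at this
    exact this.le
  have e : ∀ᵐ k ∂nuh ν, R.K k (pull F ⁻¹' E) = G (absF F k) := by
    filter_upwards [R.cov F hF E hE, (absF_qmp hν F).ae hG3] with k h4 h5
    rw [h4, h5]
  rw [lintegral_congr_ae e, lintegral_nuh' hν (G := fun k => G (absF F k))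
    (hG1.measurable.comp (measurable_absF F)), ← setLIntegral_const]
  exact (setLIntegral_mono' measurableSet_Icc (h2 r hr hr' G hG1 hG2 h F ha hz)).trans
    (setLIntegral_le_lintegral _ _)

end Pool.Agent.QL
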